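import Mathlib

/-!
# Squad AT12, row ANN: linear algebra
-/

open scoped BigOperators

noncomputable section

namespace Pool.Agent.PP.T12.H56

/-- the kernel of `C` is the image of the idempotent `R` if the dimensions fit -/
theorem eq_ker {κ : Type} [Fintype κ] [DecidableEq κ] (K n : ℕ) (R : Matrix κ κ ℂ)
    (hR : R * R = R) (htr : R.trace = n) (C : Matrix (Fin K) κ ℂ) (hC : C * R = 0)
    (hli : LinearIndependent ℂ (fun i => C i)) (hcard : Fintype.card κ = K + n) (a : κ → ℂ) :
    C.mulVec a = 0 ↔ R.mulVec a = a := by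
  constructor
  · intro ha
    obtain ⟨f, hf⟩ : ∃ f : (κ → ℂ) →ₗ[ℂ] (κ → ℂ), f = Matrix.toLin' R := ⟨_, rfl⟩
    obtain ⟨g, hg⟩ : ∃ g : (κ → ℂ) →ₗ[ℂ] (Fin K → ℂ), g = Matrix.toLin' C := ⟨_, rfl⟩
    have h1 : IsIdempotentElem f := by
      unfold IsIdempotentElem
      rw [hf, Module.End.mul_eq_comp, ← Matrix.toLin'_mul, hR]
    have h2 := (LinearMap.isProj_range_iff_isIdempotentElem f).2 h1
    have h3 : LinearMap.trace ℂ (κ → ℂ) f = (Module.finrank ℂ (LinearMap.range f) : ℂ) := h2.trace
    have h4 : LinearMap.trace ℂ (κ → ℂ) f = R.trace := by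
      rw [hf, Matrix.trace_toLin'_eq]
    have h5 : Module.finrank ℂ (LinearMap.range f) = n := by
      have h6 : (n : ℂ) = (Module.finrank ℂ (LinearMap.range f) : ℂ) := by
        rw [← h3, h4, htr]
      exact_mod_cast h6.symm
    have h6 := LinearMap.finrank_range_add_finrank_ker g
    rw [Module.finrank_fintype_fun_eq_card] at h6
    have h7 : Module.finrank ℂ (LinearMap.range g) = K := by
      have h8 : C.rank = Fintype.card (Fin K) := LinearIndependent.rank_matrix hli
      rw [Fintype.card_fin] at h8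
      rw [hg, Matrix.toLin'_apply', ← Matrix.rank, h8]
    have h8 : LinearMap.range f ≤ LinearMap.ker g := by
      rintro _ ⟨x, rfl⟩
      rw [LinearMap.mem_ker, hf, hg, Matrix.toLin'_apply, Matrix.toLin'_apply, Matrix.mulVec_mulVec,
        hC, Matrix.zero_mulVec]
    have h9 : LinearMap.range f = LinearMap.ker g := by
      refine Submodule.eq_of_le_of_finrank_eq h8 ?_
      omega
    have h10 : a ∈ LinearMap.range f := by
      rw [h9, LinearMap.mem_ker, hg, Matrix.toLin'_apply, ha]
    obtain ⟨b, hb⟩ := h10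
    rw [hf, Matrix.toLin'_apply] at hb
    rw [← hb, Matrix.mulVec_mulVec, hR]
  · intro ha
    rw [← ha, Matrix.mulVec_mulVec, hC, Matrix.zero_mulVec]

/-- vectors with Gram matrix `1 + m J` are independent -/
theorem li_gram {κ : Type} [Fintype κ] (K m : ℕ) (c : Fin K → κ → ℂ)
    (h1 : ∀ i, ∑ k, c i k * starRingEnd ℂ (c i k) = 1 + m)
    (h2 : ∀ i j, i ≠ j → ∑ k, c i k * starRingEnd ℂ (c j k) = m) : LinearIndependent ℂ c := by
  classical
  rw [Fintype.linearIndependent_iff]
  intro a ha j
  have h3 : ∀ j, a j + m * ∑ i, a i = 0 := by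
    intro j
    have h4 : ∑ i, a i * ∑ k, c i k * starRingEnd ℂ (c j k) =
        ∑ k, (∑ i, a i • c i) k * starRingEnd ℂ (c j k) := by
      simp only [Finset.mul_sum, Finset.sum_apply, Pi.smul_apply, smul_eq_mul, Finset.sum_mul]
      rw [Finset.sum_comm]
      exact Finset.sum_congr rfl fun k _ => Finset.sum_congr rfl fun i _ => by ring
    rw [ha] at h4
    have h5 : ∑ i, a i * ∑ k, c i k * starRingEnd ℂ (c j k) = ∑ i, (m * a i +
        if i = j then a i else 0) := by
      refine Finset.sum_congr rfl fun i _ => ?_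
      by_cases hij : i = j
      · subst hij
        rw [h1, if_pos rfl]
        ring
      · rw [h2 i j hij, if_neg hij]
        ring
    rw [h5, Finset.sum_add_distrib, Finset.sum_ite_eq' Finset.univ j, if_pos (Finset.mem_univ _),
      ← Finset.mul_sum] at h4
    rw [add_comm, h4]
    simp
  have h6 : (∑ i, a i) * (1 + m * K) = 0 := by
    have h7 : ∑ j : Fin K, (a j + m * ∑ i, a i) = 0 := Finset.sum_eq_zero fun j _ => h3 j
    rw [Finset.sum_add_distrib, Finset.sum_const, Finset.card_univ, Fintype.card_fin,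
      nsmul_eq_mul] at h7
    rw [← h7]
    ring
  have h8 : (1 + (m : ℂ) * K) ≠ 0 := by
    have : ((1 + m * K : ℕ) : ℂ) ≠ 0 := Nat.cast_ne_zero.2 (by omega)
    push_cast at this
    exact this
  have h9 : ∑ i, a i = 0 := (mul_eq_zero.1 h6).resolve_right h8
  have h10 := h3 j
  rw [h9, mul_zero, add_zero] at h10
  exact h10

end Pool.Agent.PP.T12.H56
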