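import Pool.Agent.AT12.Stmts1
import Pool.Agent.Helper6_AT8.CMB
import Pool.Agent.Helper49_AT3.BRG
import Pool.Agent.Helper76_AT8.FKL
import Pool.Agent.Helper56_AT12.LinA

/-!
# Squad AT12, row ANN: the class functions which vanish at the singular elements
-/

open scoped BigOperators

noncomputable section

namespace Pool.Agent.PP.T12.H56

open Pool.Agent.Helper51_AWC Pool.Agent.Helper79_WRA Pool.Agent.PP Pool.Agent.PP.KF
open Pool.Agent.PP.K9 Pool.Agent.PP.K9.H97 Pool.Agent.PP.H75 Pool.Agent.PP.T3 Pool.Agent.PP.T2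
open Pool.Agent.PP.T8

attribute [local instance] Ideal.Quotient.field

theorem ann (fni : FniStmt) (fgr : FgrStmt) (fnz : FnzStmt) (fkl : FklStmt) (lrk : LrkStmt) :
    AnnStmt := by
  classical
  intro ℓ _ M _ hM hl2 G _ _ N hN e V γ b d c ε hD hF hV hix K u lam hu huo hl hlo hall
  have := Fintype.ofFinite G
  have hpr : ℓ.Prime := Fact.out
  have he : IsIdem e := hD.ld.blk.1
  have hfin : (IrrE M e).Finite := K9.H25.irrE_finite M e
  obtain ⟨S, hSdef⟩ : ∃ S : Finset (G → ℂ), S = hfin.toFinset := ⟨_, rfl⟩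
  have hSc : (S : Set (G → ℂ)) = IrrE M e := by rw [hSdef, Set.Finite.coe_toFinset]
  have hmem : ∀ χ, χ ∈ S ↔ χ ∈ IrrE M e := fun χ => by
    rw [hSdef, Set.Finite.mem_toFinset]
  have hS : ∀ ψ ∈ S, ψ ∈ Irr G := fun ψ hψ => ((hmem ψ).1 hψ).1
  have hcard : (IrrE M e).ncard = Fintype.card S := by
    rw [← hSc, Set.ncard_coe_finset, Fintype.card_coe]
  obtain ⟨z1, z2, z3⟩ := fnz ℓ M hM hl2 G e V γ b d c ε hD hF
  -- the integers
  have hint : ∀ (i : Fin K) (χ : S), ∃ n : ℤ, cl M V b d ε (lam i) χ = n := fun i χ =>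
    fni ℓ M hM hl2 G N hN e V γ b d c ε hD hF χ (hS _ χ.2) (lam i)
  choose C hC using hint
  have hsum : ∀ i j, ∑ᶠ χ ∈ Irr G, cl M V b d ε (lam i) χ *
      starRingEnd ℂ (cl M V b d ε (lam j) χ) = ((∑ χ : S, C i χ * C j χ : ℤ) : ℂ) := by
    intro i j
    have h3 : ∑ᶠ χ ∈ Irr G, cl M V b d ε (lam i) χ *
        starRingEnd ℂ (cl M V b d ε (lam j) χ) = ∑ᶠ χ ∈ IrrE M e, cl M V b d ε (lam i) χ *
        starRingEnd ℂ (cl M V b d ε (lam j) χ) := by
      refine finsum_congr fun χ => ?_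
      rw [finsum_eq_if, finsum_eq_if]
      by_cases hχ : χ ∈ Irr G
      · by_cases hχe : χ ∈ IrrE M e
        · rw [if_pos hχ, if_pos hχe]
        · rw [if_pos hχ, if_neg hχe, z3 (lam i) χ hχ hχe, zero_mul]
      · rw [if_neg hχ, if_neg (fun h => hχ h.1)]
    rw [h3, finsum_mem_eq_finite_toFinset_sum _ hfin, ← hSdef, ← Finset.sum_coe_sort]
    push_cast
    refine Finset.sum_congr rfl fun χ _ => ?_
    rw [hC, hC]
    simp
  have hg1 : ∀ i, ∑ k, C i k * C i k = 1 + (ix V γ : ℤ) := by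
    intro i
    have h6 := (fgr ℓ M hM hl2 G e V γ b d c ε hD hF (lam i) (lam i) (hl i) (hl i)).1 rfl
    rw [hsum i i] at h6
    exact_mod_cast h6
  have hg2 : ∀ i j, i ≠ j → ∑ k, C i k * C j k = (ix V γ : ℤ) := by
    intro i j hij
    have h6 := (fgr ℓ M hM hl2 G e V γ b d c ε hD hF (lam i) (lam j) (hl i) (hl j)).2
      (hlo j i (Ne.symm hij))
    rw [hsum i j] at h6
    exact_mod_cast h6
  have hrg : ∀ v : G, v ∈ V → v ≠ 1 → Rg V γ v := by
    intro v hv hv1
    refine ⟨hv, hv1, ?_⟩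
    intro t ht
    obtain ⟨ht1, ht2⟩ := Subgroup.mem_inf.1 ht
    exact hF t ht1 v hv hv1 (Subgroup.mem_centralizer_singleton_iff.1 ht2)
  have h4 := H6.cmb (Fin K) S C (ix V γ) hg1 hg2 (by
    intro χ
    obtain ⟨mu, hmu, hne⟩ := z2 hV χ ((hmem _).1 χ.2)
    obtain ⟨i, t, ht, htc⟩ := hall mu hmu
    refine ⟨i, ?_⟩
    intro h0
    apply hne
    rw [z1 t ht (lam i) mu htc χ (hS _ χ.2), hC, h0, Int.cast_zero])
  have h5 := fkl ℓ M hM G e V γ b d c ε hD (Fin K) u (fun i => hrg _ (hu i).1 (hu i).2) huo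
  rw [Fintype.card_fin] at h4 h5
  rw [hcard] at h5
  have hln : ln e = ix V γ := by omega
  have hk : Fintype.card S = K + ix V γ := by omega
  refine ⟨by rw [hcard, hk], ?_⟩
  -- the matrix
  obtain ⟨R, hR⟩ : ∃ R : Matrix S S ℂ, ∀ χ ψ : S, R χ ψ = (Fintype.card G : ℂ)⁻¹ *
      ∑ s, (if Reg ℓ s then (χ : G → ℂ) s else 0) * (ψ : G → ℂ) s⁻¹ := ⟨fun χ ψ => _, fun _ _ => rfl⟩
  have hsym : ∀ χ ψ : S, R χ ψ = R ψ χ := by
    intro χ ψ
    rw [hR, hR]
    congr 1
    rw [← Equiv.sum_comp (Equiv.inv G)]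
    refine Finset.sum_congr rfl fun s _ => ?_
    rw [Equiv.inv_apply, inv_inv]
    by_cases hs : Reg ℓ s
    · rw [if_pos hs, if_pos (K9.H25.reg_inv.2 hs), mul_comm]
    · rw [if_neg hs, if_neg (fun h => hs (K9.H25.reg_inv.1 h)), zero_mul, zero_mul]
  have hexp : ∀ (χ : S) (t : G), ∑ ψ : S, R χ ψ * (ψ : G → ℂ) t =
      if Reg ℓ t then (χ : G → ℂ) t else 0 := by
    intro χ t
    have h1 := (K9.H25.rot T3.H62.wbo_ ℓ M hM G e he).1 χ
      (Submodule.subset_span ((hmem _).1 χ.2))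
    rw [← hSc] at h1
    have h2 := congrFun (K9.H25.pj_span hS h1) t
    unfold K9.H25.pj at h2
    rw [Finset.sum_apply, ← Finset.sum_coe_sort] at h2
    rw [← h2]
    refine Finset.sum_congr rfl fun ψ _ => ?_
    rw [Pi.smul_apply, smul_eq_mul, hR]
  have hRR : R * R = R := by
    ext χ φ
    rw [Matrix.mul_apply, hR χ φ]
    have h1 : ∀ ψ : S, R χ ψ * R ψ φ = (Fintype.card G : ℂ)⁻¹ *
        ∑ t, (if Reg ℓ t then R χ ψ * (ψ : G → ℂ) t else 0) * (φ : G → ℂ) t⁻¹ := by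
      intro ψ
      rw [hR ψ φ, mul_left_comm, Finset.mul_sum]
      congr 1
      refine Finset.sum_congr rfl fun t _ => ?_
      by_cases ht : Reg ℓ t
      · rw [if_pos ht, if_pos ht, mul_assoc]
      · rw [if_neg ht, if_neg ht, zero_mul, mul_zero]
    rw [Finset.sum_congr rfl fun ψ _ => h1 ψ, ← Finset.mul_sum, Finset.sum_comm]
    congr 1
    refine Finset.sum_congr rfl fun t _ => ?_
    by_cases ht : Reg ℓ t
    · simp only [if_pos ht]
      rw [← Finset.sum_mul, hexp χ t, if_pos ht]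
    · simp only [if_neg ht, zero_mul, Finset.sum_const_zero]
  have htr : R.trace = (ln e : ℂ) := by
    rw [lrk ℓ M hM G e he, Nat.card_eq_fintype_card]
    unfold Matrix.trace
    have h1 : ∀ χ : S, R.diag χ = (Fintype.card G : ℂ)⁻¹ *
        ∑ s, (if Reg ℓ s then (χ : G → ℂ) s * starRingEnd ℂ ((χ : G → ℂ) s) else 0) := by
      intro χ
      rw [Matrix.diag_apply, hR]
      congr 1
      refine Finset.sum_congr rfl fun s _ => ?_
      by_cases hs : Reg ℓ s
      · rw [if_pos hs, if_pos hs, H94.irr_star (hS _ χ.2)]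
      · rw [if_neg hs, if_neg hs, zero_mul]
    rw [Finset.sum_congr rfl fun χ _ => h1 χ, ← Finset.mul_sum, Finset.sum_comm,
      finsum_eq_sum_of_fintype]
    congr 1
    refine Finset.sum_congr rfl fun s _ => ?_
    rw [finsum_eq_if, finsum_mem_eq_finite_toFinset_sum _ hfin, ← hSdef]
    by_cases hs : Reg ℓ s
    · simp only [if_pos hs]
      exact Finset.sum_coe_sort S (fun χ => χ s * starRingEnd ℂ (χ s))
    · simp only [if_neg hs, Finset.sum_const_zero]
  have hel : ∀ v : G, v ∈ V → El ℓ v := by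
    intro v hv
    obtain ⟨k, hk⟩ := hD.ld.tp.pg ⟨v, hv⟩
    exact ⟨k, congrArg Subtype.val hk⟩
  have hker : ∀ v : G, Rg V γ v → ∀ χ : S, ∑ ψ : S, R χ ψ * vv M b d v ψ = 0 := by
    intro v hv χ
    have h0 : ∀ s, Reg ℓ s → ∑ ψ : S, (ψ : G → ℂ) s⁻¹ * vv M b d v ψ = 0 := by
      intro s hs
      have := Fintype.ofFinite (Cu v)
      have h1 : ∀ ψ : S, (ψ : G → ℂ) s⁻¹ * vv M b d v ψ = ∑ x : Cu v,
          eh M (fun t : Cu v => b v t) x / d v *
            ((ψ : G → ℂ) s⁻¹ * (ψ : G → ℂ) (v * x)) := by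
        intro ψ
        unfold vv gv gbv
        rw [finsum_eq_sum_of_fintype, Finset.sum_div, Finset.mul_sum]
        exact Finset.sum_congr rfl fun x _ => by ring
      rw [Finset.sum_congr rfl fun ψ _ => h1 ψ, Finset.sum_comm]
      refine Finset.sum_eq_zero fun x _ => ?_
      rw [← Finset.mul_sum]
      by_cases hx : Reg ℓ x
      · have h2 : ¬ Reg ℓ (v * x) := H76.sing_mul hv.2.1 (hel _ hv.1) (T3.H62.reg_coe hx)
          (T3.H62.comm_Cu x.2).symm
        have h3 := T3.H62.wbo_ ℓ M hM G e he s (v * x) hs h2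
        rw [finsum_mem_eq_finite_toFinset_sum _ hfin, ← hSdef] at h3
        rw [Finset.sum_coe_sort S (fun ψ => ψ s⁻¹ * ψ (v * x)), h3, mul_zero]
      · rw [K9.H25.eh_sing T3.H62.wbo_ ℓ M hM _ (hD.lc _ hv).blk.blk.1 x hx, zero_div,
          zero_mul]
    have h1 : ∀ ψ : S, R χ ψ * vv M b d v ψ = (Fintype.card G : ℂ)⁻¹ *
        ∑ s, (if Reg ℓ s then (χ : G → ℂ) s else 0) * ((ψ : G → ℂ) s⁻¹ * vv M b d v ψ) := by
      intro ψ
      rw [hR, mul_assoc, Finset.sum_mul]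
      congr 1
      exact Finset.sum_congr rfl fun s _ => by ring
    rw [Finset.sum_congr rfl fun ψ _ => h1 ψ, ← Finset.mul_sum, Finset.sum_comm]
    rw [Finset.sum_eq_zero, mul_zero]
    intro s _
    rw [← Finset.mul_sum]
    by_cases hs : Reg ℓ s
    · rw [h0 s hs, mul_zero]
    · rw [if_neg hs, zero_mul]
  -- the vectors `c i`
  obtain ⟨D, hDm⟩ : ∃ D : Matrix (Fin K) S ℂ, ∀ i χ, D i χ = (C i χ : ℂ) :=
    ⟨fun i χ => _, fun _ _ => rfl⟩
  have hDc : ∀ i (χ : S), D i χ = cl M V b d ε (lam i) χ := fun i χ => by rw [hDm, hC]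
  have hDR : D * R = 0 := by
    ext i χ
    rw [Matrix.mul_apply, Matrix.zero_apply]
    have := Fintype.ofFinite V
    have h1 : ∀ ψ : S, D i ψ * R ψ χ = ∑ v : V, (Nat.card V : ℂ)⁻¹ * ((ε v : ℂ) *
        ((lam i v⁻¹ - 1) * (R χ ψ * vv M b d v ψ))) := by
      intro ψ
      rw [hDc, hsym ψ χ]
      unfold cl
      rw [finsum_eq_sum_of_fintype, Finset.mul_sum, Finset.sum_mul]
      exact Finset.sum_congr rfl fun v _ => by ring
    rw [Finset.sum_congr rfl fun ψ _ => h1 ψ, Finset.sum_comm]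
    refine Finset.sum_eq_zero fun v _ => ?_
    rw [← Finset.mul_sum, ← Finset.mul_sum, ← Finset.mul_sum]
    by_cases hv : v = 1
    · rw [hv, inv_one, map_one, sub_self, zero_mul, mul_zero, mul_zero]
    · rw [hker v (hrg v v.2 (fun h => hv (Subtype.ext h))) χ, mul_zero, mul_zero, mul_zero]
  have hli : LinearIndependent ℂ (fun i => D i) := by
    refine li_gram K (ix V γ) (fun i => D i) (fun i => ?_) (fun i j hij => ?_)
    · have h1 : ∑ k, D i k * starRingEnd ℂ (D i k) = ((∑ k, C i k * C i k : ℤ) : ℂ) := by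
        push_cast
        refine Finset.sum_congr rfl fun k _ => ?_
        rw [hDm]
        simp
      rw [h1, hg1]
      push_cast
      ring
    · have h1 : ∑ k, D i k * starRingEnd ℂ (D j k) = ((∑ k, C i k * C j k : ℤ) : ℂ) := by
        push_cast
        refine Finset.sum_congr rfl fun k _ => ?_
        rw [hDm, hDm]
        simp
      rw [h1, hg2 i j hij]
      push_cast
      ring
  rw [← hln] at hk
  have hkey := eq_ker K (ln e) R hRR htr D hDR hli hk
  intro Ψ hΨ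
  rw [← hSc] at hΨ
  obtain ⟨a, ha⟩ : ∃ a : S → ℂ, ∀ ψ : S, a ψ = (Fintype.card G : ℂ)⁻¹ *
    ∑ s, Ψ s * (ψ : G → ℂ) s⁻¹ := ⟨fun ψ => _, fun _ => rfl⟩
  have haip : ∀ ψ : S, ipn Ψ ψ = a ψ := by
    intro ψ
    rw [ha]
    unfold ipn
    rw [finsum_eq_sum_of_fintype, Nat.card_eq_fintype_card]
    congr 1
    exact Finset.sum_congr rfl fun s _ => by rw [H94.irr_star (hS _ ψ.2)]
  have hΨa : ∀ t, Ψ t = ∑ ψ : S, a ψ * (ψ : G → ℂ) t := by
    intro t
    have h2 := congrFun (K9.H25.pj_span hS hΨ) t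
    unfold K9.H25.pj at h2
    rw [Finset.sum_apply, ← Finset.sum_coe_sort] at h2
    rw [← h2]
    refine Finset.sum_congr rfl fun ψ _ => ?_
    rw [Pi.smul_apply, smul_eq_mul, ha]
  have hDa : (∀ i, ∑ᶠ χ ∈ IrrE M e, ipn Ψ χ * cl M V b d ε (lam i) χ = 0) ↔ D.mulVec a = 0 := by
    have h1 : ∀ i, ∑ᶠ χ ∈ IrrE M e, ipn Ψ χ * cl M V b d ε (lam i) χ = D.mulVec a i := by
      intro i
      rw [finsum_mem_eq_finite_toFinset_sum _ hfin, ← hSdef, ← Finset.sum_coe_sort]
      change _ = ∑ ψ : S, D i ψ * a ψ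
      refine Finset.sum_congr rfl fun ψ _ => ?_
      rw [haip, hDc, mul_comm]
    constructor
    · intro h
      funext i
      rw [← h1, h i]
      rfl
    · intro h i
      rw [h1, h]
      rfl
  rw [hDa, hkey]
  constructor
  · intro hRc
    funext ψ
    change ∑ χ : S, R ψ χ * a χ = a ψ
    rw [ha ψ]
    have h1 : ∀ s, Ψ s * (ψ : G → ℂ) s⁻¹ = ∑ χ : S, a χ * ((if Reg ℓ s then (χ : G → ℂ) s else 0) *
        (ψ : G → ℂ) s⁻¹) := by
      intro s
      by_cases hs : Reg ℓ s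
      · simp only [if_pos hs]
        rw [hΨa s, Finset.sum_mul]
        exact Finset.sum_congr rfl fun χ _ => by ring
      · simp only [if_neg hs, zero_mul, mul_zero, Finset.sum_const_zero]
        rw [hRc.sg s hs, zero_mul]
    rw [Finset.sum_congr rfl fun s _ => h1 s, Finset.sum_comm, Finset.mul_sum]
    refine Finset.sum_congr rfl fun χ _ => ?_
    rw [hsym ψ χ, hR, ← Finset.mul_sum]
    ring
  · intro hRa
    have h2 : ∀ t, Ψ t = ∑ χ : S, a χ * (if Reg ℓ t then (χ : G → ℂ) t else 0) := by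
      intro t
      rw [hΨa t]
      have h3 : ∀ ψ : S, a ψ * (ψ : G → ℂ) t = ∑ χ : S, a χ * (R χ ψ * (ψ : G → ℂ) t) := by
        intro ψ
        have h4 : a ψ = ∑ χ : S, R ψ χ * a χ := by
          conv_lhs => rw [← hRa]
          rfl
        rw [h4, Finset.sum_mul]
        refine Finset.sum_congr rfl fun χ _ => ?_
        rw [hsym ψ χ]
        ring
      rw [Finset.sum_congr rfl fun ψ _ => h3 ψ, Finset.sum_comm]
      refine Finset.sum_congr rfl fun χ _ => ?_
      rw [← Finset.mul_sum, hexp]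
    constructor
    · intro x y
      rw [hΨa, hΨa]
      refine Finset.sum_congr rfl fun ψ _ => ?_
      rw [irr_conj (hS _ ψ.2)]
    · intro x hx
      rw [h2 x]
      refine Finset.sum_eq_zero fun χ _ => ?_
      rw [if_neg hx, mul_zero]

end Pool.Agent.PP.T12.H56
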