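import Pool.Agent.AT12.Stmts1
import Pool.Agent.Helper60_AT8.GEQ
import Pool.Agent.Helper76_AT8.FKL

/-!
# Squad AT12, row STF: values at idempotents
-/

open scoped BigOperators

noncomputable section

namespace Pool.Agent.PP.T12.H56

open Pool.Agent.Helper51_AWC Pool.Agent.Helper79_WRA Pool.Agent.PP Pool.Agent.PP.KF
open Pool.Agent.PP.K9 Pool.Agent.PP.K9.H97 Pool.Agent.PP.H75 Pool.Agent.PP.T3 Pool.Agent.PP.T2
open Pool.Agent.PP.T8

attribute [local instance] Ideal.Quotient.field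

/-- class functions which vanish at the singular elements -/
theorem fv_zero (lft : T8.LftStmt) (smi : SmiStmt) (prj : PrjStmt) {ℓ : ℕ} [Fact ℓ.Prime]
    (M : Ideal (integralClosure ℤ ℂ)) [M.IsMaximal] (hM : (ℓ : integralClosure ℤ ℂ) ∈ M)
    {G : Type} [Group G] [Finite G] (V : Subgroup G) (hV : IsPGroup ℓ V) (i : G → ℂ)
    (hi : Ip M V i) (Δ : G → ℂ) (hΔ : Rc ℓ Δ) (z : G) (hz : z ∈ V) (hz1 : z ≠ 1) :
    fv i z Δ = 0 := by
  have hF : GoodF ℓ (FF M) := H50.fld ℓ Fact.out M hM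
  have hzp : IsPGroup ℓ (Subgroup.zpowers z) := hV.to_le (Subgroup.zpowers_le.2 hz)
  have hzi : ∀ x, rd M i (z * x * z⁻¹) = rd M i x := by
    intro x
    unfold rd
    rw [hi.iv z hz]
  have hxx : mulF (rs (Cu z) (rd M i)) (rs (Cu z) (rd M i)) = rs (Cu z) (rd M i) := by
    rw [← H28.rs_mulF hF hzp hzi hzi, ← H28.rd_mulF hi.rm hi.rm, hi.id]
  have hxs : ∀ g, g ∉ Cu z → rs (Cu z) (rd M i) g = 0 := by
    intro g hg
    unfold rs
    rw [if_neg hg]
  have hxin : ∀ g, g ∈ Cu z → rs (Cu z) (rd M i) g = rd M i g := by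
    intro g hg
    unfold rs
    rw [if_pos hg]
  obtain ⟨j, hj, hjs, hjx⟩ := lft M G ⊥ (Cu z) (rs (Cu z) (rd M i)) hxx hxs (by
    intro v hv g
    rw [Subgroup.mem_bot] at hv
    rw [hv, one_mul, inv_one, mul_one])
  have hjr : ∀ g ∈ Cu z, rr M (j g) = rr M (i g) := by
    intro g hg
    have h1 := congrFun hjx g
    rw [hxin g hg] at h1
    exact h1
  have hel : El ℓ z := by
    obtain ⟨n, hn⟩ := hV ⟨z, hz⟩
    refine ⟨n, ?_⟩
    have := congrArg Subtype.val hn
    simpa using this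
  have s1 := smi ℓ M hM G z hel i j hi.rm hi.id (hi.iv z hz) hj.rm hj.id hjs hjr
    Δ hΔ.cl
  rw [s1]
  have e1 : fv j z Δ = ∑ᶠ c : Cu z, j c * Δ (z * c) := by
    unfold fv
    exact H60.fsum_supp (Cu z) (fun g => j g * Δ (z * g)) (fun g hg => by
      rw [hjs g hg, zero_mul])
  have hid : mulF (fun c : Cu z => j c) (fun c : Cu z => j c) = fun c : Cu z => j c := by
    funext c
    have h1 := congrFun hj.id (c : G)
    unfold mulF at h1 ⊢
    rw [H60.fsum_supp (Cu z) (fun t => j t * j (t⁻¹ * (c : G))) (fun g hg => by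
      rw [hjs g hg, zero_mul])] at h1
    exact h1
  have hp := prj ℓ M hM (Cu z) (fun c => j c) (fun c => hj.rm c) hid
    (fun c => Δ (z * c)) ?_ ?_
  · rw [e1]
    exact hp
  · intro x y
    have hyz : (y : G) * z = z * y := Subgroup.mem_centralizer_singleton_iff.1 y.2
    have h3 : z * ((y : G) * x * (y : G)⁻¹) = y * (z * x) * (y : G)⁻¹ := by
      rw [← mul_assoc (y : G) z, hyz]
      group
    show Δ (z * ((y : G) * x * (y : G)⁻¹)) = Δ (z * x)
    rw [h3, hΔ.cl]
  · intro x hx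
    show Δ (z * x) = 0
    have hc : z * (x : G) = x * z := (Subgroup.mem_centralizer_singleton_iff.1 x.2).symm
    exact hΔ.sg _ (H76.sing_mul hz1 hel (T3.H62.reg_coe hx) hc)

/-- characters which are not in `f` -/
theorem chv_out (idm : KF.IdmStmt) {M : Ideal (integralClosure ℤ ℂ)} [M.IsMaximal] {G : Type}
    [Group G] [Finite G] (f : G → FF M) (hf : IsIdem f) (j : G → ℂ) (hjr : ∀ g, j g ∈ RM M)
    (hjj : mulF j j = j) (hjf : mulF (rd M j) f = rd M j) (χ : G → ℂ) (hχ : χ ∈ Irr G)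
    (hχf : χ ∉ IrrE M f) : chv j χ = 0 := by
  obtain ⟨hv, hi, ha⟩ := idm M G f hf
  have hfR : ∀ g, eh M f g ∈ RM M := fun g => (hv g).1
  have hfr : rd M (eh M f) = f := by
    funext g
    exact (hv g).2
  have hcomm : mulF (eh M f) j = mulF j (eh M f) := mulF_comm_cl hi.1 j
  have hJ : ma j * ma j = ma j := by rw [← ma_mul, hjj]
  have hBB : ma (eh M f) * ma (eh M f) = ma (eh M f) := by rw [← ma_mul, hi.2]
  have hC : ma (eh M f) * ma j = ma j * ma (eh M f) := by rw [← ma_mul, ← ma_mul, hcomm]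
  have hp0 : j - mulF j (eh M f) = 0 := by
    refine H28.idem_zero (M := M) (p := j - mulF j (eh M f)) ?_ ?_ ?_
    · intro g
      exact (RM M).sub_mem (hjr g) (H28.mulF_RM hjr hfR g)
    · intro g
      change rr M (j g - mulF j (eh M f) g) = 0
      rw [rr_sub (hjr g) (H28.mulF_RM hjr hfR g)]
      have h1 : rr M (mulF j (eh M f) g) = mulF (rd M j) (rd M (eh M f)) g := by
        rw [← H28.rd_mulF hjr hfR]
        rfl
      have h2 : rr M (j g) = rd M j g := rfl
      rw [h1, h2, hfr, hjf, sub_self]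
    · apply ma_injective
      rw [ma_mul, ma_sub, ma_mul]
      have e1 : ma j * ma (eh M f) * ma j = ma j * ma (eh M f) := by
        rw [mul_assoc, hC, ← mul_assoc, hJ]
      have e2 : ma j * ma (eh M f) * (ma j * ma (eh M f)) = ma j * ma (eh M f) := by
        rw [← mul_assoc, e1, mul_assoc, hBB]
      rw [sub_mul, mul_sub, mul_sub, hJ, e1, e2, ← mul_assoc, hJ, sub_self, sub_zero]
  have h3 : j = mulF (eh M f) j := by
    rw [hcomm]
    exact sub_eq_zero.1 hp0
  rw [h3]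
  exact (ha χ hχ j).2 (fun h => hχf ⟨hχ, h⟩)

/-- the values of the characters at an idempotent -/
theorem chv_nat (fch : FchStmt) {M : Ideal (integralClosure ℤ ℂ)} [M.IsMaximal] {G : Type}
    [Group G] [Finite G] (V : Subgroup G) (j : G → ℂ) (hj : Ip M V j) (χ : G → ℂ)
    (hχ : χ ∈ Irr G) : ∃ m : ℕ, chv j χ = m := by
  obtain ⟨m, hm⟩ := fch M G ⊥ (by
    intro a ha b hb
    rw [Subgroup.mem_bot] at ha hb
    rw [ha, hb]) j ⟨hj.rm, hj.id, by
      intro v hv x
      rw [Subgroup.mem_bot] at hv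
      rw [hv, one_mul, inv_one, mul_one]⟩ χ hχ 1
  refine ⟨m, ?_⟩
  rw [← hm, finsum_unique]
  have h1 : Nat.card (⊥ : Subgroup G) = 1 := Subgroup.card_bot
  rw [h1, Nat.cast_one, inv_one, one_mul, MonoidHom.one_apply, mul_one]
  unfold chv fv
  refine finsum_congr fun g => ?_
  have h2 : (((default : (⊥ : Subgroup G)) : (⊥ : Subgroup G)) : G) = 1 := by
    have h3 := (default : (⊥ : Subgroup G)).2
    rw [Subgroup.mem_bot] at h3
    exact h3
  rw [h2, one_mul]

end Pool.Agent.PP.T12.H56
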