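import Mathlib

/-!
# Squad AT12, row STF: combinatorics
-/

open scoped BigOperators

noncomputable section

namespace Pool.Agent.PP.T12.H56

theorem stf_comb {κ : Type} [Fintype κ] [DecidableEq κ] (K m : ℕ)
    (hcard : Fintype.card κ = K + m) (c : Fin K → κ → ℤ) (y : κ → ℤ) (s : Fin K → ℤ)
    (r : Fin K → κ) (hr : Function.Injective r) (hs : ∀ i, s i = 1 ∨ s i = -1)
    (hy0 : ∀ i, y (r i) = 0) (hy1 : ∀ k, (∀ i, r i ≠ k) → y k = 1 ∨ y k = -1)
    (hc : ∀ i k, c i k = y k - if k = r i then s i else 0) :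
    ∃ (G : Fin m → κ → ℤ) (yy : Fin m → ℤ) (pt : Fin m → κ), Function.Injective pt ∧
      (∀ p, yy p = 1 ∨ yy p = -1) ∧ (∀ p i, ∑ χ, G p χ * c i χ = 0) ∧
      (∀ p q, ∑ χ, G p χ * G q χ = (if p = q then 1 else 0) + K) ∧
      (∀ p q χ, G p χ - G q χ = (if χ = pt p then yy p else 0) - (if χ = pt q then yy q else 0)) ∧
      (∀ N : κ → ℤ, (∀ i, ∑ χ, N χ * c i χ = 0) → ∀ χ, N χ = ∑ p, yy p * N (pt p) * G p χ) := by
  classical
  have hcc : Fintype.card {k // k ∉ Set.range r} = m := by
    have h1 : Fintype.card {k // k ∈ Set.range r} = K := by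
      have h2 : Fintype.card (Set.range r) = Fintype.card (Fin K) :=
        Set.card_range_of_injective hr
      rw [Fintype.card_fin] at h2
      exact h2
    have h3 := Fintype.card_subtype_compl (fun k => k ∈ Set.range r)
    rw [h1, hcard] at h3
    omega
  obtain ⟨e0⟩ : Nonempty ({k // k ∉ Set.range r} ≃ Fin m) := by
    have h1 := Fintype.equivFin {k // k ∉ Set.range r}
    rw [hcc] at h1
    exact ⟨h1⟩
  obtain ⟨pt, hpt⟩ : ∃ pt : Fin m → κ, ∀ p, pt p = (e0.symm p).1 := ⟨_, fun _ => rfl⟩
  have hptr : ∀ p i, r i ≠ pt p := by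
    intro p i h
    rw [hpt] at h
    exact (e0.symm p).2 ⟨i, h⟩
  have hptinj : Function.Injective pt := by
    intro p q h
    rw [hpt, hpt] at h
    exact e0.symm.injective (Subtype.ext h)
  have hbij : Function.Bijective (Sum.elim pt r : Fin m ⊕ Fin K → κ) := by
    constructor
    · rintro (p | i) (q | j) h
      · exact congrArg Sum.inl (hptinj h)
      · exact absurd h.symm (hptr p j)
      · exact absurd h (hptr q i)
      · exact congrArg Sum.inr (hr h)
    · intro k
      by_cases hk : k ∈ Set.range r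
      · obtain ⟨i, hi⟩ := hk
        exact ⟨Sum.inr i, hi⟩
      · refine ⟨Sum.inl (e0 ⟨k, hk⟩), ?_⟩
        change pt (e0 ⟨k, hk⟩) = k
        rw [hpt, e0.symm_apply_apply]
  have hsplit : ∀ F : κ → ℤ, ∑ χ, F χ = ∑ p, F (pt p) + ∑ i, F (r i) := by
    intro F
    rw [← Equiv.sum_comp (Equiv.ofBijective _ hbij) F, Fintype.sum_sum_type]
    rfl
  obtain ⟨G, hG⟩ : ∃ G : Fin m → κ → ℤ, ∀ p χ, G p χ = (if χ = pt p then y (pt p) else 0) +
    ∑ i, if χ = r i then s i else 0 := ⟨fun p χ => _, fun _ _ => rfl⟩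
  have hGp : ∀ p q, G p (pt q) = if p = q then y (pt q) else 0 := by
    intro p q
    rw [hG, Finset.sum_eq_zero (fun i _ => if_neg (fun h => hptr q i h.symm)), add_zero]
    by_cases h : p = q
    · rw [h, if_pos rfl, if_pos rfl]
    · rw [if_neg h, if_neg (fun h1 => h (hptinj h1).symm)]
  have hGr : ∀ p i, G p (r i) = s i := by
    intro p i
    rw [hG, if_neg (hptr p i), zero_add, Finset.sum_eq_single i, if_pos rfl]
    · intro j _ hj
      rw [if_neg (fun h => hj (hr h).symm)]
    · intro h
      exact absurd (Finset.mem_univ i) h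
  have hcp : ∀ i p, c i (pt p) = y (pt p) := by
    intro i p
    rw [hc, if_neg (fun h => hptr p i h.symm), sub_zero]
  have hcr : ∀ i j, c i (r j) = - if i = j then s i else 0 := by
    intro i j
    rw [hc, hy0, zero_sub]
    by_cases h : i = j
    · rw [h, if_pos rfl, if_pos rfl]
    · rw [if_neg h, if_neg (fun h1 => h (hr h1).symm)]
  have hyp : ∀ p, y (pt p) = 1 ∨ y (pt p) = -1 := fun p => hy1 _ (hptr p)
  have hyy : ∀ p, y (pt p) * y (pt p) = 1 := by
    intro p
    rcases hyp p with h | h <;> rw [h] <;> norm_num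
  have hss : ∀ i, s i * s i = 1 := by
    intro p
    rcases hs p with h | h <;> rw [h] <;> norm_num
  refine ⟨G, fun p => y (pt p), pt, hptinj, hyp, ?_, ?_, ?_, ?_⟩
  · intro p i
    rw [hsplit]
    have h1 : ∑ q, G p (pt q) * c i (pt q) = 1 := by
      rw [Finset.sum_eq_single p]
      · rw [hGp, if_pos rfl, hcp, hyy]
      · intro q _ hq
        rw [hGp, if_neg (Ne.symm hq), zero_mul]
      · intro h
        exact absurd (Finset.mem_univ p) h
    have h2 : ∑ j, G p (r j) * c i (r j) = -1 := by
      rw [Finset.sum_eq_single i]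
      · rw [hGr, hcr, if_pos rfl, mul_neg, hss]
      · intro q _ hq
        rw [hcr, if_neg (Ne.symm hq), neg_zero, mul_zero]
      · intro h
        exact absurd (Finset.mem_univ i) h
    rw [h1, h2]
    norm_num
  · intro p q
    rw [hsplit]
    have h1 : ∑ t, G p (pt t) * G q (pt t) = if p = q then 1 else 0 := by
      rw [Finset.sum_eq_single p]
      · rw [hGp, if_pos rfl, hGp]
        by_cases h : p = q
        · rw [h, if_pos rfl, if_pos rfl, hyy]
        · rw [if_neg h, if_neg (Ne.symm h), mul_zero]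
      · intro t _ ht
        rw [hGp, if_neg (Ne.symm ht), zero_mul]
      · intro h
        exact absurd (Finset.mem_univ p) h
    have h2 : ∑ j, G p (r j) * G q (r j) = K := by
      rw [Finset.sum_congr rfl (fun j _ => by rw [hGr, hGr, hss]), Finset.sum_const,
        Finset.card_univ, Fintype.card_fin, nsmul_eq_mul, mul_one]
    rw [h1, h2]
  · intro p q χ
    rw [hG, hG]
    ring
  · intro N hN χ
    have hNr : ∀ i, N (r i) = s i * ∑ p, y (pt p) * N (pt p) := by
      intro i
      have h1 := hN i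
      rw [hsplit] at h1
      have h2 : ∑ j, N (r j) * c i (r j) = - (N (r i) * s i) := by
        rw [Finset.sum_eq_single i]
        · rw [hcr, if_pos rfl, mul_neg]
        · intro q _ hq
          rw [hcr, if_neg (Ne.symm hq), neg_zero, mul_zero]
        · intro h
          exact absurd (Finset.mem_univ i) h
      have h3 : ∑ p, N (pt p) * c i (pt p) = ∑ p, y (pt p) * N (pt p) :=
        Finset.sum_congr rfl fun p _ => by rw [hcp, mul_comm]
      rw [h2, h3] at h1
      have h4 : ∑ p, y (pt p) * N (pt p) = N (r i) * s i := by linarith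
      rw [h4, ← mul_assoc, mul_comm (s i), mul_assoc, hss, mul_one]
    obtain ⟨x, hx⟩ := hbij.2 χ
    rcases x with q | i
    · change pt q = χ at hx
      rw [← hx, Finset.sum_eq_single q]
      · rw [hGp, if_pos rfl]
        have h1 : y (pt q) * N (pt q) * y (pt q) = (y (pt q) * y (pt q)) * N (pt q) := by ring
        rw [h1, hyy, one_mul]
      · intro t _ ht
        rw [hGp, if_neg ht, mul_zero]
      · intro h
        exact absurd (Finset.mem_univ q) h
    · change r i = χ at hx
      rw [← hx, hNr, Finset.mul_sum]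
      refine Finset.sum_congr rfl fun p _ => ?_
      rw [hGr]
      ring

end Pool.Agent.PP.T12.H56
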