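import Pool.Agent.AT12.Stmts1
import Pool.Agent.Helper98_AT3.Fxs
import Pool.Agent.Helper49_AT3.BRG

/-!
# Squad AT12, row STF: combinations of irreducible characters
-/

open scoped BigOperators

noncomputable section

namespace Pool.Agent.PP.T12.H56

open Pool.Agent.Helper51_AWC Pool.Agent.Helper79_WRA Pool.Agent.PP Pool.Agent.PP.KF
open Pool.Agent.PP.K9 Pool.Agent.PP.K9.H97 Pool.Agent.PP.H75 Pool.Agent.PP.T3 Pool.Agent.PP.T2
open Pool.Agent.PP.T8

attribute [local instance] Ideal.Quotient.field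

section

variable {G : Type} [Group G]

/-- a combination of characters -/
def Ph (S : Finset (G → ℂ)) (a : S → ℂ) : G → ℂ := fun x => ∑ χ : S, a χ * (χ : G → ℂ) x

theorem ph_span (S : Finset (G → ℂ)) (a : S → ℂ) :
    Ph S a ∈ Submodule.span ℂ (S : Set (G → ℂ)) := by
  have h : Ph S a = ∑ χ : S, a χ • (χ : G → ℂ) := by
    funext x
    unfold Ph
    rw [Finset.sum_apply]
    rfl
  rw [h]
  exact Submodule.sum_mem _ fun χ _ => Submodule.smul_mem _ _ (Submodule.subset_span χ.2)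

theorem ph_closure (S : Finset (G → ℂ)) (n : S → ℤ) :
    Ph S (fun χ => (n χ : ℂ)) ∈ AddSubgroup.closure (S : Set (G → ℂ)) := by
  have h : Ph S (fun χ => (n χ : ℂ)) = ∑ χ : S, n χ • (χ : G → ℂ) := by
    funext x
    unfold Ph
    rw [Finset.sum_apply]
    refine Finset.sum_congr rfl fun χ _ => ?_
    rw [Pi.smul_apply, zsmul_eq_mul]
  rw [h]
  exact AddSubgroup.sum_mem _ fun χ _ =>
    AddSubgroup.zsmul_mem _ (AddSubgroup.subset_closure χ.2) _

theorem ph_cl (S : Finset (G → ℂ)) (hS : ∀ ψ ∈ S, ψ ∈ Irr G) (a : S → ℂ) (x y : G) :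
    Ph S a (y * x * y⁻¹) = Ph S a x := by
  unfold Ph
  refine Finset.sum_congr rfl fun χ _ => ?_
  rw [irr_conj (hS _ χ.2)]

variable [Finite G]

theorem ipn_irr (χ ψ : G → ℂ) (hχ : χ ∈ Irr G) (hψ : ψ ∈ Irr G) [Decidable (χ = ψ)] :
    ipn χ ψ = if χ = ψ then 1 else 0 := by
  have := Fintype.ofFinite G
  have hc : (Fintype.card G : ℂ) ≠ 0 := by exact_mod_cast Fintype.card_ne_zero
  unfold ipn
  rw [finsum_eq_sum_of_fintype, Nat.card_eq_fintype_card]
  have h1 : ∑ x, χ x * starRingEnd ℂ (ψ x) = ∑ x, χ x * ψ x⁻¹ :=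
    Finset.sum_congr rfl fun x _ => by rw [H94.irr_star hψ]
  rw [h1]
  by_cases h : χ = ψ
  · subst h
    rw [if_pos rfl, irr_orth_self hχ, inv_mul_cancel₀ hc]
  · rw [if_neg h, irr_orth_ne hχ hψ h, mul_zero]

theorem ipn_ph_left (S : Finset (G → ℂ)) (a : S → ℂ) (ψ : G → ℂ) :
    ipn (Ph S a) ψ = ∑ χ : S, a χ * ipn χ ψ := by
  have := Fintype.ofFinite G
  unfold ipn Ph
  simp only [finsum_eq_sum_of_fintype]
  rw [Finset.mul_sum]
  have h1 : ∀ χ : S, a χ * ((Nat.card G : ℂ)⁻¹ * ∑ x, (χ : G → ℂ) x * starRingEnd ℂ (ψ x)) =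
      ∑ x, (Nat.card G : ℂ)⁻¹ * (a χ * (χ : G → ℂ) x * starRingEnd ℂ (ψ x)) := by
    intro χ
    rw [Finset.mul_sum, Finset.mul_sum]
    exact Finset.sum_congr rfl fun x _ => by ring
  rw [Finset.sum_congr rfl fun χ _ => h1 χ, Finset.sum_comm]
  refine Finset.sum_congr rfl fun x _ => ?_
  rw [← Finset.mul_sum, Finset.sum_mul]

theorem ipn_ph_right (S : Finset (G → ℂ)) (a : S → ℂ) (ψ : G → ℂ) :
    ipn ψ (Ph S a) = ∑ χ : S, starRingEnd ℂ (a χ) * ipn ψ χ := by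
  have := Fintype.ofFinite G
  unfold ipn Ph
  simp only [finsum_eq_sum_of_fintype]
  rw [Finset.mul_sum]
  have h1 : ∀ χ : S, starRingEnd ℂ (a χ) * ((Nat.card G : ℂ)⁻¹ *
      ∑ x, ψ x * starRingEnd ℂ ((χ : G → ℂ) x)) =
      ∑ x, (Nat.card G : ℂ)⁻¹ * (ψ x * (starRingEnd ℂ (a χ) * starRingEnd ℂ ((χ : G → ℂ) x))) := by
    intro χ
    rw [Finset.mul_sum, Finset.mul_sum]
    exact Finset.sum_congr rfl fun x _ => by ring
  rw [Finset.sum_congr rfl fun χ _ => h1 χ, Finset.sum_comm]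
  refine Finset.sum_congr rfl fun x _ => ?_
  rw [← Finset.mul_sum, ← Finset.mul_sum, map_sum]
  simp only [map_mul]

theorem ipn_ph_self (S : Finset (G → ℂ)) (hS : ∀ ψ ∈ S, ψ ∈ Irr G) (a : S → ℂ) (ψ : S) :
    ipn (Ph S a) ψ = a ψ := by
  classical
  rw [ipn_ph_left, Finset.sum_eq_single ψ]
  · rw [ipn_irr _ _ (hS _ ψ.2) (hS _ ψ.2), if_pos rfl, mul_one]
  · intro χ _ hχ
    rw [ipn_irr _ _ (hS _ χ.2) (hS _ ψ.2), if_neg (fun h => hχ (Subtype.ext h)), mul_zero]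
  · intro h
    exact absurd (Finset.mem_univ ψ) h

theorem ipn_ph_ph (S : Finset (G → ℂ)) (hS : ∀ ψ ∈ S, ψ ∈ Irr G) (a b : S → ℤ) :
    ipn (Ph S (fun χ => (a χ : ℂ))) (Ph S (fun χ => (b χ : ℂ))) =
      ((∑ χ, a χ * b χ : ℤ) : ℂ) := by
  rw [ipn_ph_right]
  push_cast
  refine Finset.sum_congr rfl fun χ _ => ?_
  rw [ipn_ph_self S hS]
  simp [mul_comm]

/-- the values of a class function at `j` -/
theorem chv_sum (S : Finset (G → ℂ)) (hS : ∀ ψ ∈ S, ψ ∈ Irr G) (j : G → ℂ) (n : S → ℂ)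
    (h1 : ∀ χ : S, chv j χ = n χ) (h0 : ∀ χ ∈ Irr G, χ ∉ S → chv j χ = 0) (th : G → ℂ)
    (hth : ∀ x y, th (y * x * y⁻¹) = th x) :
    ∑ᶠ h, j h * th h = ∑ χ : S, n χ * ipn th χ := by
  classical
  have := Fintype.ofFinite G
  obtain ⟨T, hT⟩ : ∃ T : Finset (G → ℂ), T = (irr_finite' (G := G)).toFinset := ⟨_, rfl⟩
  have hTm : ∀ χ, χ ∈ T ↔ χ ∈ Irr G := fun χ => by rw [hT, Set.Finite.mem_toFinset]
  have hTc : (T : Set (G → ℂ)) = Irr G := by rw [hT, Set.Finite.coe_toFinset]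
  have h2 := T3.H98.span_irr hth
  rw [← hTc] at h2
  have h3 := K9.H25.pj_span (fun ψ hψ => (hTm ψ).1 hψ) h2
  have h4 : ∀ x, th x = ∑ ψ ∈ T, ipn th ψ * ψ x := by
    intro x
    have h5 := congrFun h3 x
    unfold K9.H25.pj at h5
    rw [Finset.sum_apply] at h5
    rw [← h5]
    refine Finset.sum_congr rfl fun ψ hψ => ?_
    rw [Pi.smul_apply, smul_eq_mul]
    congr 1
    unfold ipn
    rw [finsum_eq_sum_of_fintype, Nat.card_eq_fintype_card]
    congr 1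
    refine Finset.sum_congr rfl fun s _ => ?_
    rw [H94.irr_star ((hTm ψ).1 hψ)]
  rw [finsum_eq_sum_of_fintype]
  have h5 : ∀ x, j x * th x = ∑ ψ ∈ T, ipn th ψ * (j x * ψ x) := by
    intro x
    conv_lhs => rw [h4 x]
    rw [Finset.mul_sum]
    exact Finset.sum_congr rfl fun ψ _ => by ring
  rw [Finset.sum_congr rfl fun x _ => h5 x, Finset.sum_comm]
  have h6 : ∀ ψ, ∑ x, ipn th ψ * (j x * ψ x) = ipn th ψ * chv j ψ := by
    intro ψ
    rw [← Finset.mul_sum]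
    unfold chv
    rw [finsum_eq_sum_of_fintype]
  rw [Finset.sum_congr rfl fun ψ _ => h6 ψ]
  have h7 : ∑ χ : S, n χ * ipn th χ = ∑ ψ ∈ S, ipn th ψ * chv j ψ := by
    rw [← Finset.sum_coe_sort S (fun ψ => ipn th ψ * chv j ψ)]
    refine Finset.sum_congr rfl fun χ _ => ?_
    rw [h1, mul_comm]
  rw [h7]
  symm
  refine Finset.sum_subset (fun ψ hψ => (hTm ψ).2 (hS ψ hψ)) ?_
  intro ψ hψ hψS
  rw [h0 ψ ((hTm ψ).1 hψ) hψS, mul_zero]

/-- a class function which is orthogonal to the class functions at the singular elements -/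
theorem sing_zero {ℓ : ℕ} (Ψ : G → ℂ) (hΨ : ∀ x y, Ψ (y * x * y⁻¹) = Ψ x)
    (h : ∀ th : G → ℂ, (∀ x y, th (y * x * y⁻¹) = th x) → (∀ x, Reg ℓ x → th x = 0) →
      ipn th Ψ = 0) (x : G) (hx : ¬ Reg ℓ x) : Ψ x = 0 := by
  classical
  have := Fintype.ofFinite G
  have hc : (Fintype.card G : ℂ) ≠ 0 := by exact_mod_cast Fintype.card_ne_zero
  have h1 := h (fun z => if Reg ℓ z then 0 else Ψ z) ?_ ?_
  · unfold ipn at h1
    rw [finsum_eq_sum_of_fintype, Nat.card_eq_fintype_card] at h1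
    have h2 := (mul_eq_zero.1 h1).resolve_left (inv_ne_zero hc)
    have h3 : ∀ z, (if Reg ℓ z then (0 : ℂ) else Ψ z) * starRingEnd ℂ (Ψ z) =
        ((if Reg ℓ z then 0 else Complex.normSq (Ψ z) : ℝ) : ℂ) := by
      intro z
      by_cases hz : Reg ℓ z
      · rw [if_pos hz, if_pos hz, zero_mul, Complex.ofReal_zero]
      · rw [if_neg hz, if_neg hz, Complex.mul_conj]
    rw [Finset.sum_congr rfl fun z _ => h3 z, ← Complex.ofReal_sum, Complex.ofReal_eq_zero] at h2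
    rw [Finset.sum_eq_zero_iff_of_nonneg (fun z _ => by
      by_cases hz : Reg ℓ z
      · rw [if_pos hz]
      · rw [if_neg hz]
        exact Complex.normSq_nonneg _)] at h2
    have h4 := h2 x (Finset.mem_univ x)
    rw [if_neg hx] at h4
    exact Complex.normSq_eq_zero.1 h4
  · intro a b
    have h2 : Reg ℓ (b * a * b⁻¹) ↔ Reg ℓ a := by
      have h3 : orderOf (b * a * b⁻¹) = orderOf a :=
        orderOf_injective (MulAut.conj b).toMonoidHom (MulAut.conj b).injective a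
      unfold Reg
      rw [h3]
    by_cases ha : Reg ℓ a
    · rw [if_pos ha, if_pos (h2.2 ha)]
    · rw [if_neg ha, if_neg (fun hh => ha (h2.1 hh)), hΨ]
  · intro a ha
    rw [if_pos ha]

end

end Pool.Agent.PP.T12.H56
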