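import Pool.Agent.Helper56_AT12.STF1
import Pool.Agent.Helper56_AT12.STF2
import Pool.Agent.Helper56_AT12.STF3
import Pool.Agent.Helper56_AT12.STF4
import Pool.Agent.Helper76_AT8.FKL

/-!
# Squad AT12, row STF: the structure of the block
-/

open scoped BigOperators

noncomputable section

namespace Pool.Agent.PP.T12.H56

open Pool.Agent.Helper51_AWC Pool.Agent.Helper79_WRA Pool.Agent.PP Pool.Agent.PP.KF
open Pool.Agent.PP.K9 Pool.Agent.PP.K9.H97 Pool.Agent.PP.H75 Pool.Agent.PP.T3 Pool.Agent.PP.T2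
open Pool.Agent.PP.T8

attribute [local instance] Ideal.Quotient.field

theorem fv_lin {G : Type} [Group G] [Finite G] (j : G → ℂ) (z : G) (a b : ℂ) (χ ψ Δ : G → ℂ)
    (h : ∀ x, Δ x = a * χ x - b * ψ x) : fv j z Δ = a * fv j z χ - b * fv j z ψ := by
  have := Fintype.ofFinite G
  unfold fv
  rw [finsum_eq_sum_of_fintype, finsum_eq_sum_of_fintype, finsum_eq_sum_of_fintype,
    Finset.mul_sum, Finset.mul_sum, ← Finset.sum_sub_distrib]
  refine Finset.sum_congr rfl fun x _ => ?_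
  rw [h]
  ring

theorem fv_one {G : Type} [Group G] (j χ : G → ℂ) : fv j 1 χ = chv j χ := by
  unfold fv chv
  exact finsum_congr fun g => by rw [one_mul]

theorem stf (ann' : AnnStmt) (cms : CmsStmt) (pr2 : T2.Pr2Stmt) (dat : DatStmt) (hfor : ForStmt)
    (fni : FniStmt) (fgr : FgrStmt) (fnz : FnzStmt) (prj : PrjStmt) (smi : SmiStmt)
    (fch : FchStmt) (lft : T8.LftStmt) (idm : KF.IdmStmt) : StfStmt := by
  classical
  intro ℓ _ M _ hM hl2 G _ _ e V γ hL hF hix h3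
  have := Fintype.ofFinite G
  have hpr : ℓ.Prime := Fact.out
  have he : IsIdem e := hL.blk.1
  obtain ⟨N, hN⟩ := pr2 ℓ hl2 G
  obtain ⟨b, d, c, ε, hD⟩ := dat ℓ M hM G e V γ hL
  have hG : GoodF ℓ (FF M) := H50.fld ℓ Fact.out M hM
  obtain ⟨K, u, lam, hu, huo, hl, hlo, hall⟩ := hfor ℓ (FF M) hG G e V γ hL hF
  have hcnt := count hL hF K u lam hu huo hall
  have hm := ix_pos V γ
  have hK3 : 3 ≤ K := by
    rw [← hcnt] at h3
    by_contra hcon
    have h4 : K ≤ 2 := by omega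
    have h5 : ix V γ * K ≤ ix V γ * 2 := Nat.mul_le_mul_left _ h4
    omega
  have hV : V ≠ ⊥ := by
    intro h
    rw [h] at h3
    have h1 : Nat.card (⊥ : Subgroup G) = 1 := Subgroup.card_bot
    rw [h1] at h3
    rw [h] at hm
    omega
  obtain ⟨hk, hann⟩ := ann' ℓ M hM hl2 G N hN e V γ b d c ε hD hF hV hix K u lam hu huo hl hlo hall
  have hfin : (IrrE M e).Finite := K9.H25.irrE_finite M e
  obtain ⟨S, hSdef⟩ : ∃ S : Finset (G → ℂ), S = hfin.toFinset := ⟨_, rfl⟩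
  have hSc : (S : Set (G → ℂ)) = IrrE M e := by rw [hSdef, Set.Finite.coe_toFinset]
  have hmem : ∀ χ, χ ∈ S ↔ χ ∈ IrrE M e := fun χ => by
    rw [hSdef, Set.Finite.mem_toFinset]
  have hS : ∀ ψ ∈ S, ψ ∈ Irr G := fun ψ hψ => ((hmem ψ).1 hψ).1
  have hcard : Fintype.card S = K + ix V γ := by
    rw [← hk, ← hSc, Set.ncard_coe_finset, Fintype.card_coe]
  obtain ⟨z1, z2, z3⟩ := fnz ℓ M hM hl2 G e V γ b d c ε hD hF
  -- the integers
  have hint : ∀ (i : Fin K) (χ : S), ∃ n : ℤ, cl M V b d ε (lam i) χ = n := fun i χ =>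
    fni ℓ M hM hl2 G N hN e V γ b d c ε hD hF χ (hS _ χ.2) (lam i)
  choose C hC using hint
  have hsum : ∀ i j, ∑ᶠ χ ∈ Irr G, cl M V b d ε (lam i) χ *
      starRingEnd ℂ (cl M V b d ε (lam j) χ) = ((∑ χ : S, C i χ * C j χ : ℤ) : ℂ) := by
    intro i j
    have h3 : ∑ᶠ χ ∈ Irr G, cl M V b d ε (lam i) χ *
        starRingEnd ℂ (cl M V b d ε (lam j) χ) = ∑ᶠ χ ∈ IrrE M e, cl M V b d ε (lam i) χ *
        starRingEnd ℂ (cl M V b d ε (lam j) χ) := by
      refine finsum_congr fun χ => ?_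
      rw [finsum_eq_if, finsum_eq_if]
      by_cases hχ : χ ∈ Irr G
      · by_cases hχe : χ ∈ IrrE M e
        · rw [if_pos hχ, if_pos hχe]
        · rw [if_pos hχ, if_neg hχe, z3 (lam i) χ hχ hχe, zero_mul]
      · rw [if_neg hχ, if_neg (fun h => hχ h.1)]
    rw [h3, finsum_mem_eq_finite_toFinset_sum _ hfin, ← hSdef, ← Finset.sum_coe_sort]
    push_cast
    refine Finset.sum_congr rfl fun χ _ => ?_
    rw [hC, hC]
    simp
  have hg1 : ∀ i, ∑ k, C i k * C i k = 1 + (ix V γ : ℤ) := by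
    intro i
    have h6 := (fgr ℓ M hM hl2 G e V γ b d c ε hD hF (lam i) (lam i) (hl i) (hl i)).1 rfl
    rw [hsum i i] at h6
    exact_mod_cast h6
  have hg2 : ∀ i j, i ≠ j → ∑ k, C i k * C j k = (ix V γ : ℤ) := by
    intro i j hij
    have h6 := (fgr ℓ M hM hl2 G e V γ b d c ε hD hF (lam i) (lam j) (hl i) (hl j)).2
      (hlo j i (Ne.symm hij))
    rw [hsum i j] at h6
    exact_mod_cast h6
  obtain ⟨y, s, r, hr, hs, hy0, hy1, hc⟩ := cms (Fin K) S C (ix V γ) hg1 hg2 (by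
    intro χ
    obtain ⟨mu, hmu, hne⟩ := z2 hV χ ((hmem _).1 χ.2)
    obtain ⟨i, t, ht, htc⟩ := hall mu hmu
    refine ⟨i, ?_⟩
    intro h0
    apply hne
    rw [z1 t ht (lam i) mu htc χ (hS _ χ.2), hC, h0, Int.cast_zero]) (by
    rw [Fintype.card_fin]
    exact hK3) (by
    rw [Fintype.card_fin, hcard])
  obtain ⟨Gm, yy, pt, hpt, hyy, c1, c2, c3, c4⟩ := stf_comb K (ix V γ) hcard C y s r hr hs hy0 hy1 hc
  obtain ⟨g, hg⟩ : ∃ g : Fin (ix V γ) → G → ℂ, ∀ p, g p = Ph S (fun χ => (Gm p χ : ℂ)) :=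
    ⟨_, fun _ => rfl⟩
  have hgcl : ∀ p x y, g p (y * x * y⁻¹) = g p x := by
    intro p x y
    rw [hg, ph_cl S hS]
  -- the criterion
  have hcrit : ∀ n : S → ℤ, Rc ℓ (Ph S (fun χ => (n χ : ℂ))) ↔ ∀ i, ∑ χ, n χ * C i χ = 0 := by
    intro n
    rw [hann (Ph S (fun χ => (n χ : ℂ))) (by rw [← hSc]; exact ph_span S _)]
    refine forall_congr' fun i => ?_
    have h1 : ∑ᶠ χ ∈ IrrE M e, ipn (Ph S (fun χ => (n χ : ℂ))) χ * cl M V b d ε (lam i) χ =
        ((∑ χ, n χ * C i χ : ℤ) : ℂ) := by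
      rw [finsum_mem_eq_finite_toFinset_sum _ hfin, ← hSdef, ← Finset.sum_coe_sort]
      push_cast
      refine Finset.sum_congr rfl fun χ _ => ?_
      rw [ipn_ph_self S hS, hC]
    rw [h1, Int.cast_eq_zero]
  have hgrc : ∀ p, Rc ℓ (g p) := by
    intro p
    rw [hg]
    exact (hcrit (Gm p)).2 (c1 p)
  refine ⟨K, g, hcnt, ?_, hgrc, ?_, ?_⟩
  · intro p
    rw [hg]
    unfold ZE
    rw [← hSc]
    exact ph_closure S (Gm p)
  · intro p q
    rw [hg, hg, ipn_ph_ph S hS, c2]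
    push_cast
    rfl
  · intro j hj hjf
    have hchn : ∀ χ : S, ∃ n : ℕ, chv j χ = n := fun χ => chv_nat fch V j hj χ (hS _ χ.2)
    choose n hn using hchn
    have hout : ∀ χ ∈ Irr G, χ ∉ S → chv j χ = 0 := fun χ hχ hχS =>
      chv_out idm e he j hj.rm hj.id hjf χ hχ (fun h => hχS ((hmem χ).2 h))
    have hval : ∀ th : G → ℂ, (∀ x y, th (y * x * y⁻¹) = th x) →
        ∑ᶠ h, j h * th h = ∑ χ : S, (n χ : ℂ) * ipn th χ := fun th hth =>
      chv_sum S hS j (fun χ => (n χ : ℂ)) hn hout th hth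
    obtain ⟨Ψ, hΨ⟩ : ∃ Ψ : G → ℂ, Ψ = Ph S (fun χ => (((n χ : ℕ) : ℤ) : ℂ)) := ⟨_, rfl⟩
    have hΨip : ∀ th : G → ℂ, ipn th Ψ = ∑ χ : S, (n χ : ℂ) * ipn th χ := by
      intro th
      rw [hΨ, ipn_ph_right]
      refine Finset.sum_congr rfl fun χ _ => ?_
      simp
    have hΨcl : ∀ x y, Ψ (y * x * y⁻¹) = Ψ x := by
      intro x y
      rw [hΨ, ph_cl S hS]
    have hΨrc : Rc ℓ Ψ := by
      refine ⟨hΨcl, ?_⟩
      intro x hx
      refine sing_zero (ℓ := ℓ) Ψ hΨcl ?_ x hx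
      intro th hth hth0
      rw [hΨip, ← hval th hth]
      exact prj ℓ M hM G j hj.rm hj.id th hth hth0
    have hNz : ∀ i, ∑ χ, ((n χ : ℕ) : ℤ) * C i χ = 0 := by
      rw [hΨ] at hΨrc
      exact (hcrit (fun χ => ((n χ : ℕ) : ℤ))).1 hΨrc
    have hc4 := c4 (fun χ => ((n χ : ℕ) : ℤ)) hNz
    refine ⟨fun p => yy p * ((n (pt p) : ℕ) : ℤ), ?_, ?_⟩
    · intro p q
      obtain ⟨mp, hmp⟩ := fch M G V hL.ab j hj (pt p) (hS _ (pt p).2) 1
      obtain ⟨mq, hmq⟩ := fch M G V hL.ab j hj (pt q) (hS _ (pt q).2) 1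
      have i1 : Fintype V := Fintype.ofFinite V
      have hVc : (Nat.card V : ℂ) ≠ 0 := by exact_mod_cast Nat.card_pos.ne'
      rw [finsum_eq_sum_of_fintype] at hmp hmq
      have hmp' : ∑ v : V, fv j v (pt p) = (Nat.card V : ℂ) * mp := by
        rw [← hmp, ← mul_assoc, mul_inv_cancel₀ hVc, one_mul]
        exact Finset.sum_congr rfl fun v _ => by rw [MonoidHom.one_apply, mul_one]
      have hmq' : ∑ v : V, fv j v (pt q) = (Nat.card V : ℂ) * mq := by
        rw [← hmq, ← mul_assoc, mul_inv_cancel₀ hVc, one_mul]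
        exact Finset.sum_congr rfl fun v _ => by rw [MonoidHom.one_apply, mul_one]
      obtain ⟨Δ, hΔ⟩ : ∃ Δ : G → ℂ, ∀ x, Δ x = g p x - g q x := ⟨_, fun _ => rfl⟩
      have hΔrc : Rc ℓ Δ := by
        refine ⟨?_, ?_⟩
        · intro x y
          rw [hΔ, hΔ, hgcl, hgcl]
        · intro x hx
          rw [hΔ, (hgrc p).sg x hx, (hgrc q).sg x hx, sub_zero]
      have hΔpt : ∀ x, Δ x = (yy p : ℂ) * (pt p : G → ℂ) x - (yy q : ℂ) * (pt q : G → ℂ) x := by
        intro x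
        rw [hΔ, hg, hg]
        unfold Ph
        rw [← Finset.sum_sub_distrib]
        have h1 : ∀ χ : S, (Gm p χ : ℂ) * (χ : G → ℂ) x - (Gm q χ : ℂ) * (χ : G → ℂ) x =
            (if χ = pt p then (yy p : ℂ) * (χ : G → ℂ) x else 0) -
            (if χ = pt q then (yy q : ℂ) * (χ : G → ℂ) x else 0) := by
          intro χ
          have h2 := c3 p q χ
          have h3' : (Gm p χ : ℂ) - (Gm q χ : ℂ) =
              (if χ = pt p then (yy p : ℂ) else 0) - (if χ = pt q then (yy q : ℂ) else 0) := by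
            have h4 := congrArg (Int.cast : ℤ → ℂ) h2
            push_cast at h4
            exact h4
          rw [← sub_mul, h3', sub_mul, ite_mul, ite_mul, zero_mul]
        rw [Finset.sum_congr rfl fun χ _ => h1 χ, Finset.sum_sub_distrib,
          Finset.sum_ite_eq' Finset.univ (pt p), if_pos (Finset.mem_univ _),
          Finset.sum_ite_eq' Finset.univ (pt q), if_pos (Finset.mem_univ _)]
      have hsumΔ : ∑ v : V, fv j v Δ = (yy p : ℂ) * ((Nat.card V : ℂ) * mp) -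
          (yy q : ℂ) * ((Nat.card V : ℂ) * mq) := by
        rw [← hmp', ← hmq', Finset.mul_sum, Finset.mul_sum, ← Finset.sum_sub_distrib]
        exact Finset.sum_congr rfl fun v _ => fv_lin j v _ _ _ _ Δ hΔpt
      have hsumΔ' : ∑ v : V, fv j v Δ = fv j 1 Δ := by
        rw [Finset.sum_eq_single (1 : V)]
        · rfl
        · intro v _ hv
          exact fv_zero lft smi prj M hM V hL.tp.pg j hj Δ hΔrc v v.2
            (fun h => hv (Subtype.ext h))
        · intro h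
          exact absurd (Finset.mem_univ _) h
      have hfin2 : fv j 1 Δ = (yy p : ℂ) * (n (pt p) : ℂ) - (yy q : ℂ) * (n (pt q) : ℂ) := by
        rw [fv_lin j 1 _ _ _ _ Δ hΔpt, fv_one, fv_one, hn, hn]
      rw [hcnt]
      refine ⟨yy p * mp - yy q * mq, ?_⟩
      have h9 : (yy p : ℂ) * (n (pt p) : ℂ) - (yy q : ℂ) * (n (pt q) : ℂ) =
          (Nat.card V : ℂ) * ((yy p : ℂ) * mp - (yy q : ℂ) * mq) := by
        rw [← hfin2, ← hsumΔ', hsumΔ]
        ring
      have h10 : ((yy p * ((n (pt p) : ℕ) : ℤ) - yy q * ((n (pt q) : ℕ) : ℤ) : ℤ) : ℂ) =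
          ((((Nat.card V : ℕ) : ℤ) * (yy p * (mp : ℤ) - yy q * (mq : ℤ)) : ℤ) : ℂ) := by
        push_cast
        exact h9
      exact Int.cast_injective h10
    · intro th hth
      rw [hval th hth]
      have h1 : ∀ p, ipn th (g p) = ∑ χ : S, (Gm p χ : ℂ) * ipn th χ := by
        intro p
        rw [hg, ipn_ph_right]
        refine Finset.sum_congr rfl fun χ _ => ?_
        simp
      have h2 : ∀ χ : S, (n χ : ℂ) = ∑ p, (yy p : ℂ) * (n (pt p) : ℂ) * (Gm p χ : ℂ) := by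
        intro χ
        have h3' := congrArg (Int.cast : ℤ → ℂ) (hc4 χ)
        push_cast at h3'
        exact h3'
      have h3' : ∀ χ : S, (n χ : ℂ) * ipn th χ =
          ∑ p, (yy p : ℂ) * (n (pt p) : ℂ) * ((Gm p χ : ℂ) * ipn th χ) := by
        intro χ
        rw [h2 χ, Finset.sum_mul]
        exact Finset.sum_congr rfl fun p _ => by ring
      rw [Finset.sum_congr rfl fun χ _ => h3' χ, Finset.sum_comm]
      refine Finset.sum_congr rfl fun p _ => ?_
      rw [h1, ← Finset.mul_sum]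
      push_cast
      rfl

end Pool.Agent.PP.T12.H56
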