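import Pool.Agent.AT12.Stmts1
import Pool.Agent.Helper37_AT8.FOR

/-!
# Squad AT12, row STF: the number of orbits
-/

open scoped BigOperators

noncomputable section

namespace Pool.Agent.PP.T12.H56

open Pool.Agent.Helper51_AWC Pool.Agent.Helper79_WRA Pool.Agent.PP Pool.Agent.PP.KF
open Pool.Agent.PP.K9 Pool.Agent.PP.K9.H97 Pool.Agent.PP.H75 Pool.Agent.PP.T3 Pool.Agent.PP.T2
open Pool.Agent.PP.T8

attribute [local instance] Ideal.Quotient.field

theorem ix_pos {G F : Type} [Group G] [Finite G] (V : Subgroup G) (γ : G → F) : 0 < ix V γ := by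
  unfold ix Subgroup.relIndex
  exact Nat.pos_of_ne_zero Subgroup.index_ne_zero_of_finite

theorem count {ℓ : ℕ} {F : Type} [Field F] {G : Type} [Group G] [Finite G] {e : G → F}
    {V : Subgroup G} {γ : G → F} (hL : Ld ℓ e V γ) (hF : Fr V γ) (K : ℕ) (u : Fin K → G)
    (lam : Fin K → (V →* ℂ)) (hu : ∀ i, u i ∈ V ∧ u i ≠ 1)
    (huo : ∀ i j, i ≠ j → ∀ t ∈ Tg V γ, t * u i * t⁻¹ ≠ u j)
    (hall : ∀ mu : V →* ℂ, (∃ v, mu v ≠ 1) → ∃ i, ∃ t ∈ Tg V γ, Tc V t (lam i) mu) :
    ix V γ * K + 1 = Nat.card V := by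
  classical
  let cV : CommGroup V :=
    { (inferInstance : Group V) with
      mul_comm := fun a b => Subtype.ext (hL.ab a a.2 b b.2) }
  obtain ⟨hfin, hcard⟩ := H37.for_dual V
  have hc : ∀ t ∈ Tg V γ, ∀ v ∈ V, t * v * t⁻¹ ∈ V := fun t ht v hv =>
    (Subgroup.mem_normalizer_iff.1 (Subgroup.mem_inf.1 ht).1 v).1 hv
  let Z : Subgroup (Tg V γ) := (Subgroup.centralizer (V : Set G)).subgroupOf (Tg V γ)
  have hZ : Nat.card (Tg V γ ⧸ Z) = ix V γ := rfl
  have hP : Nat.card (Fin K × (Tg V γ ⧸ Z)) = ix V γ * K := by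
    rw [Nat.card_prod, hZ, Nat.card_eq_fintype_card, Fintype.card_fin, mul_comm]
  -- the elements
  let X1 := {v : V // v ≠ 1}
  let X2 := {l : V →* ℂ // l ≠ 1}
  have c1 : Nat.card X1 = Nat.card V - 1 := by
    have i1 : Fintype V := Fintype.ofFinite V
    rw [Nat.card_eq_fintype_card, Nat.card_eq_fintype_card]
    exact Set.card_ne_eq _
  have c2 : Nat.card X2 = Nat.card V - 1 := by
    have i1 : Fintype (V →* ℂ) := Fintype.ofFinite _
    rw [← hcard, Nat.card_eq_fintype_card, Nat.card_eq_fintype_card]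
    exact Set.card_ne_eq _
  have hle1 : ix V γ * K ≤ Nat.card V - 1 := by
    rw [← hP, ← c1]
    let f : Fin K × (Tg V γ ⧸ Z) → X1 := fun p =>
      ⟨⟨(p.2.out : G) * u p.1 * (p.2.out : G)⁻¹, hc _ p.2.out.2 _ (hu p.1).1⟩, by
        intro h
        have h1 : (p.2.out : G) * u p.1 * (p.2.out : G)⁻¹ = 1 := congrArg Subtype.val h
        apply (hu p.1).2
        have h2 : (p.2.out : G) * u p.1 = (p.2.out : G) := by
          rw [mul_inv_eq_one] at h1
          exact h1
        exact mul_eq_left.1 h2⟩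
    refine Nat.card_le_card_of_injective f ?_
    rintro ⟨i, q⟩ ⟨i', q'⟩ h
    have h1 : (q.out : G) * u i * (q.out : G)⁻¹ = (q'.out : G) * u i' * (q'.out : G)⁻¹ :=
      congrArg (fun x : X1 => ((x : V) : G)) h
    have h2 : ((q'.out : G)⁻¹ * q.out) * u i * ((q'.out : G)⁻¹ * q.out)⁻¹ = u i' := by
      have h3 : ((q'.out : G)⁻¹ * q.out) * u i * ((q'.out : G)⁻¹ * q.out)⁻¹ =
          (q'.out : G)⁻¹ * ((q.out : G) * u i * (q.out : G)⁻¹) * q'.out := by group
      rw [h3, h1]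
      group
    have hT : (q'.out : G)⁻¹ * q.out ∈ Tg V γ :=
      (Tg V γ).mul_mem ((Tg V γ).inv_mem q'.out.2) q.out.2
    have hii : i = i' := by
      by_contra hne
      exact huo i i' hne _ hT h2
    subst hii
    have h4 : ((q'.out : G)⁻¹ * q.out) ∈ Subgroup.centralizer (V : Set G) := by
      refine hF _ hT (u i) (hu i).1 (hu i).2 ?_
      exact mul_inv_eq_iff_eq_mul.1 h2
    have h5 : q = q' := by
      rw [← q.out_eq', ← q'.out_eq']
      symm
      rw [QuotientGroup.eq]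
      exact h4
    rw [h5]
  have hle2 : Nat.card V - 1 ≤ ix V γ * K := by
    rw [← hP, ← c2]
    have hex : ∀ l : X2, ∃ p : Fin K × Tg V γ, Tc V (p.2 : G) (lam p.1) (l : V →* ℂ) := by
      intro l
      obtain ⟨i, t, ht, h⟩ := hall l (by
        by_contra hcon
        apply l.2
        ext v
        by_contra hv
        exact hcon ⟨v, hv⟩)
      exact ⟨(i, ⟨t, ht⟩), h⟩
    choose p hp using hex
    refine Nat.card_le_card_of_injective
      (fun l => ((p l).1, (QuotientGroup.mk (p l).2 : Tg V γ ⧸ Z))) ?_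
    intro l l' h
    change ((p l).1, (QuotientGroup.mk (p l).2 : Tg V γ ⧸ Z)) =
      ((p l').1, (QuotientGroup.mk (p l').2 : Tg V γ ⧸ Z)) at h
    rw [Prod.mk.injEq] at h
    have h1 : (p l).1 = (p l').1 := h.1
    have h2 : (QuotientGroup.mk (p l).2 : Tg V γ ⧸ Z) = QuotientGroup.mk (p l').2 := h.2
    rw [QuotientGroup.eq] at h2
    have h3 : (((p l).2 : G)⁻¹ * (p l').2) ∈ Subgroup.centralizer (V : Set G) := h2
    apply Subtype.ext
    ext v
    have hw := hc _ (p l).2.2 v v.2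
    have e1 := hp l v ⟨_, hw⟩ rfl
    have e2 := hp l' v ⟨_, hw⟩ (by
      change ((p l).2 : G) * v * ((p l).2 : G)⁻¹ = ((p l').2 : G) * v * ((p l').2 : G)⁻¹
      have h4 := Subgroup.mem_centralizer_iff.1 h3 v v.2
      have h5 : ((p l').2 : G) = (p l).2 * (((p l).2 : G)⁻¹ * (p l').2) := by group
      rw [h5]
      generalize (((p l).2 : G)⁻¹ * (p l').2) = c at h4
      have h6 : ((p l).2 : G) * c * v * ((p l).2 * c)⁻¹ = ((p l).2 : G) * (c * v) * c⁻¹ *
          ((p l).2 : G)⁻¹ := by group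
      rw [h6, ← h4]
      group)
    rw [e1, e2, h1]
  have hpos : 0 < Nat.card V := Nat.card_pos
  omega

end Pool.Agent.PP.T12.H56
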